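import Pool.Agent.H8.PU.Targets

/-!
# A pendant vertex is added to a certified graph
-/

set_option autoImplicit false

namespace Pool.Agent.H42.PU

open Pool.Agent.H8.PU Pool.Agent.H8.PL

private lemma finF (n : ℕ) (A : ℕ → ℕ → Prop) (f : ℕ → ℕ → ℕ) :
    {k | ∃ a < n, ∃ b < n, A a b ∧ f a b = k}.Finite := by
  refine ((Set.finite_Iio n).image2 f (Set.finite_Iio n)).subset ?_
  rintro k ⟨a, ha, b, hb, -, rfl⟩
  exact ⟨a, ha, b, hb, rfl⟩

private lemma finV (n : ℕ) (Q : ℕ → Prop) : {a | a < n ∧ Q a}.Finite :=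
  (Set.finite_Iio n).subset fun _ h => h.1

private lemma finE (n : ℕ) (A : ℕ → ℕ → Prop) :
    {p : ℕ × ℕ | p.1 < p.2 ∧ p.2 < n ∧ A p.1 p.2}.Finite := by
  refine ((Set.finite_Iio n).prod (Set.finite_Iio n)).subset ?_
  rintro ⟨a, b⟩ ⟨h1, h2, -⟩
  exact ⟨lt_trans h1 h2, h2⟩

private lemma cntE (n : ℕ) (A A' : ℕ → ℕ → Prop) (u v : ℕ)
    (h : ∀ a b, A' a b ↔ A a b ∨ (a = u ∧ b = v) ∨ (a = v ∧ b = u)) :
    {p : ℕ × ℕ | p.1 < p.2 ∧ p.2 < n ∧ A' p.1 p.2}.ncard ≤
      {p : ℕ × ℕ | p.1 < p.2 ∧ p.2 < n ∧ A p.1 p.2}.ncard + 1 := by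
  refine le_trans (Set.ncard_le_ncard (t := insert (min u v, max u v)
    {p : ℕ × ℕ | p.1 < p.2 ∧ p.2 < n ∧ A p.1 p.2}) ?_ ((finE n A).insert _))
    (Set.ncard_insert_le _ _)
  rintro ⟨a, b⟩ ⟨h1, h2, h3⟩
  simp only at h1 h2 h3
  rcases (h a b).1 h3 with h4 | ⟨rfl, rfl⟩ | ⟨rfl, rfl⟩
  · exact Or.inr ⟨h1, h2, h4⟩
  · left
    rw [min_eq_left h1.le, max_eq_right h1.le]
  · left
    rw [min_eq_right h1.le, max_eq_left h1.le]

/-- a pendant vertex is added to a certified graph -/
theorem pf_a1 : Y_A1 := by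
  intro n A A' u v hu hv huv hs hi hiso h ⟨pos, fid, rt, rk, hc⟩
  have hiso' : ∀ b, ¬ A b u := fun b hb => hiso b (hs _ _ hb)
  by_cases hN : ∃ b < n, A v b
  · -- the vertex `v` has a neighbour
    obtain ⟨b0, hb0, hAb0⟩ := hN
    obtain ⟨bl, ⟨hbl, hAbl⟩, hmax⟩ := Set.exists_max_image {b | b < n ∧ A v b} (pos v)
      (finV n _) ⟨b0, hb0, hAb0⟩
    have hmax' : ∀ c < n, A v c → pos v c ≤ pos v bl := fun c h1 h2 => hmax c ⟨h1, h2⟩
    -- the neighbour with the place 0
    have hbf : ∃ b < n, A v b ∧ pos v b = 0 := by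
      obtain ⟨b1, ⟨hb1, hAb1⟩, hmin⟩ := Set.exists_min_image {b | b < n ∧ A v b} (pos v)
        (finV n _) ⟨b0, hb0, hAb0⟩
      refine ⟨b1, hb1, hAb1, ?_⟩
      by_contra hne
      obtain ⟨b', h1, h2, h3⟩ := hc.ps v hv b1 hb1 hAb1 hne
      have := hmin b' ⟨h1, h2⟩
      omega
    obtain ⟨bf, hbf, hAbf, hbf0⟩ := hbf
    let pos2 : ℕ → ℕ → ℕ := fun a b => if a = v ∧ b = u then pos v bl + 1 else
      if a = u ∧ b = v then 0 else pos a b
    let fid2 : ℕ → ℕ → ℕ := fun a b => if (a = v ∧ b = u) ∨ (a = u ∧ b = v) then fid v bf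
      else fid a b
    let rk2 : ℕ → ℕ := fun a => if a = u then rk v + 1 else rk a
    have hp1 : pos2 v u = pos v bl + 1 := by simp [pos2]
    have hp2 : pos2 u v = 0 := by simp [pos2, huv]
    have hp3 : ∀ a b, A a b → pos2 a b = pos a b := by
      intro a b hab
      have h1 : ¬ (a = v ∧ b = u) := by
        rintro ⟨rfl, rfl⟩
        exact hiso' _ hab
      have h2 : ¬ (a = u ∧ b = v) := by
        rintro ⟨rfl, rfl⟩
        exact hiso _ hab
      simp only [pos2, if_neg h1, if_neg h2]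
    have hf1 : fid2 v u = fid v bf := by simp [fid2]
    have hf2 : fid2 u v = fid v bf := by simp [fid2]
    have hf3 : ∀ a b, A a b → fid2 a b = fid a b := by
      intro a b hab
      have h1 : ¬ ((a = v ∧ b = u) ∨ (a = u ∧ b = v)) := by
        rintro (⟨rfl, rfl⟩ | ⟨rfl, rfl⟩)
        · exact hiso' _ hab
        · exact hiso _ hab
      simp only [fid2, if_neg h1]
    have hA1 : ∀ b, A' u b → b = v := by
      intro b hb
      rcases (h u b).1 hb with h4 | ⟨-, h5⟩ | ⟨h4, h5⟩
      · exact absurd h4 (hiso b)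
      · exact h5
      · exact absurd h4 huv
    have hA2 : ∀ b, A' v b → b = u ∨ A v b := by
      intro b hb
      rcases (h v b).1 hb with h4 | ⟨h4, h5⟩ | ⟨h4, h5⟩
      · exact Or.inr h4
      · exact absurd h4.symm huv
      · exact Or.inl h5
    have hA3 : ∀ a b, a ≠ u → a ≠ v → A' a b → A a b := by
      intro a b ha hb hab
      rcases (h a b).1 hab with h4 | ⟨h4, h5⟩ | ⟨h4, h5⟩
      · exact h4
      · exact absurd h4 ha
      · exact absurd h4 hb
    have hA4 : ∀ a b, A a b → A' a b := fun a b hab => (h a b).2 (Or.inl hab)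
    have hA5 : A' u v := (h u v).2 (Or.inr (Or.inl ⟨rfl, rfl⟩))
    have hA6 : A' v u := (h v u).2 (Or.inr (Or.inr ⟨rfl, rfl⟩))
    refine ⟨pos2, fid2, fun a => rt a ∧ a ≠ u, rk2, ⟨?_, ?_, ?_, ?_, ?_⟩⟩
    · -- pi
      intro a ha b hb b' hb' hab hab' he
      by_cases hau : a = u
      · subst hau
        rw [hA1 b hab, hA1 b' hab']
      by_cases hav : a = v
      · subst hav
        rcases hA2 b hab with rfl | h1 <;> rcases hA2 b' hab' with rfl | h2
        · rfl
        · rw [hp1, hp3 _ _ h2] at he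
          have := hmax' b' hb' h2
          omega
        · rw [hp1, hp3 _ _ h1] at he
          have := hmax' b hb h1
          omega
        · rw [hp3 _ _ h1, hp3 _ _ h2] at he
          exact hc.pi a ha b hb b' hb' h1 h2 he
      · have h1 := hA3 a b hau hav hab
        have h2 := hA3 a b' hau hav hab'
        rw [hp3 _ _ h1, hp3 _ _ h2] at he
        exact hc.pi a ha b hb b' hb' h1 h2 he
    · -- ps
      intro a ha b hb hab hne
      by_cases hau : a = u
      · subst hau
        rw [hA1 b hab] at hne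
        exact absurd hp2 hne
      by_cases hav : a = v
      · subst hav
        rcases hA2 b hab with rfl | h1
        · refine ⟨bl, hbl, hA4 _ _ hAbl, ?_⟩
          rw [hp1, hp3 _ _ hAbl]
        · rw [hp3 _ _ h1] at hne ⊢
          obtain ⟨b', h3, h4, h5⟩ := hc.ps a ha b hb h1 hne
          exact ⟨b', h3, hA4 _ _ h4, by rw [hp3 _ _ h4]; exact h5⟩
      · have h1 := hA3 a b hau hav hab
        rw [hp3 _ _ h1] at hne ⊢
        obtain ⟨b', h3, h4, h5⟩ := hc.ps a ha b hb h1 hne
        exact ⟨b', h3, hA4 _ _ h4, by rw [hp3 _ _ h4]; exact h5⟩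
    · -- fi
      rintro a ha b hb c hc' ⟨hab, hac, hx⟩
      by_cases hau : a = u
      · subst hau
        rw [hA1 b hab, hA1 c hac, hf1, hf2]
      by_cases hav : a = v
      · subst hav
        rcases hA2 b hab with rfl | h1 <;> rcases hA2 c hac with rfl | h2
        · rw [hp1] at hx
          omega
        · rw [hp1, hp3 _ _ h2] at hx
          rw [hf2, hf3 _ _ h2]
          have h3 := hmax' c hc' h2
          rcases hx with hx | ⟨hx, -⟩
          · omega
          · rw [hc.pi a ha c hc' bf hbf h2 hAbf (by rw [hx, hbf0])]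
        · rw [hp1, hp3 _ _ h1] at hx
          rw [hf1, hf3 _ _ (hs _ _ h1)]
          rcases hx with hx | ⟨hx, -⟩
          · refine hc.fi a ha b hb bf hbf ⟨h1, hAbf, Or.inr ⟨hbf0, ?_⟩⟩
            intro c' h4 h5
            have := hmax' c' h4 h5
            omega
          · omega
        · rw [hp3 _ _ h1, hp3 _ _ h2] at hx
          rw [hf3 _ _ (hs _ _ h1), hf3 _ _ h2]
          rcases hx with hx | ⟨hx, hx'⟩
          · exact hc.fi a ha b hb c hc' ⟨h1, h2, Or.inl hx⟩
          · have h4 := hx' u hu hA6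
            rw [hp1] at h4
            have := hmax' b hb h1
            omega
      · have h1 := hA3 a b hau hav hab
        have h2 := hA3 a c hau hav hac
        rw [hp3 _ _ h1, hp3 _ _ h2] at hx
        rw [hf3 _ _ (hs _ _ h1), hf3 _ _ h2]
        refine hc.fi a ha b hb c hc' ⟨h1, h2, hx.imp id fun hx => ⟨hx.1, fun c' h4 h5 => ?_⟩⟩
        have := hx.2 c' h4 (hA4 _ _ h5)
        rwa [hp3 _ _ h5] at this
    · -- ro
      rintro a ha ⟨b, hb, hab⟩
      by_cases hau : a = u
      · subst hau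
        refine Or.inr ⟨v, hv, hA5, ?_⟩
        simp only [rk2, if_neg (Ne.symm huv), if_true]
        omega
      have hex : ∃ b < n, A a b := by
        by_cases hav : a = v
        · subst hav
          exact ⟨b0, hb0, hAb0⟩
        · exact ⟨b, hb, hA3 a b hau hav hab⟩
      rcases hc.ro a ha hex with h1 | ⟨b', h1, h2, h3⟩
      · exact Or.inl ⟨h1, hau⟩
      · refine Or.inr ⟨b', h1, hA4 _ _ h2, ?_⟩
        have h4 : b' ≠ u := by
          rintro rfl
          exact hiso' _ h2
        simp only [rk2, if_neg hau, if_neg h4]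
        exact h3
    · -- co
      have h1 := cntE n A A' u v h
      have h2 : {a | a < n ∧ (rt a ∧ a ≠ u) ∧ ∃ b < n, A' a b}.ncard ≤
          {a | a < n ∧ rt a ∧ ∃ b < n, A a b}.ncard := by
        refine Set.ncard_le_ncard ?_ (finV n _)
        rintro a ⟨ha, ⟨h3, h4⟩, b, hb, hab⟩
        refine ⟨ha, h3, ?_⟩
        by_cases hav : a = v
        · subst hav
          exact ⟨b0, hb0, hAb0⟩
        · exact ⟨b, hb, hA3 a b h4 hav hab⟩
      have h3 : {a | a < n ∧ ∃ b < n, A a b}.ncard + 1 ≤ {a | a < n ∧ ∃ b < n, A' a b}.ncard := by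
        have h4 : u ∉ {a | a < n ∧ ∃ b < n, A a b} := by
          rintro ⟨-, b, -, hb⟩
          exact hiso b hb
        rw [← Set.ncard_insert_of_notMem h4 (finV n _)]
        refine Set.ncard_le_ncard ?_ (finV n _)
        rintro a (rfl | ⟨ha, b, hb, hab⟩)
        · exact ⟨hu, v, hv, hA5⟩
        · exact ⟨ha, b, hb, hA4 _ _ hab⟩
      have h4 : {k | ∃ a < n, ∃ b < n, A a b ∧ fid a b = k}.ncard ≤
          {k | ∃ a < n, ∃ b < n, A' a b ∧ fid2 a b = k}.ncard := by
        refine Set.ncard_le_ncard ?_ (finF n A' fid2)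
        rintro k ⟨a, ha, b, hb, hab, rfl⟩
        exact ⟨a, ha, b, hb, hA4 _ _ hab, hf3 _ _ hab⟩
      have h5 := hc.co
      omega
  · -- the vertex `v` is isolated
    have hN' : ∀ b < n, ¬ A v b := fun b hb hab => hN ⟨b, hb, hab⟩
    have hN'' : ∀ b < n, ¬ A b v := fun b hb hab => hN ⟨b, hb, hs _ _ hab⟩
    obtain ⟨K, hK⟩ := (finF n A fid).exists_notMem
    let pos2 : ℕ → ℕ → ℕ := fun a b => if (a = v ∧ b = u) ∨ (a = u ∧ b = v) then 0 else pos a b
    let fid2 : ℕ → ℕ → ℕ := fun a b => if (a = v ∧ b = u) ∨ (a = u ∧ b = v) then K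
      else fid a b
    let rk2 : ℕ → ℕ := fun a => if a = u then rk v + 1 else rk a
    have hq : ∀ a b, A a b → ¬ ((a = v ∧ b = u) ∨ (a = u ∧ b = v)) := by
      rintro a b hab (⟨rfl, rfl⟩ | ⟨rfl, rfl⟩)
      · exact hiso' _ hab
      · exact hiso _ hab
    have hp1 : pos2 v u = 0 := by simp [pos2]
    have hp2 : pos2 u v = 0 := by simp [pos2]
    have hp3 : ∀ a b, A a b → pos2 a b = pos a b := by
      intro a b hab
      simp only [pos2, if_neg (hq a b hab)]
    have hf1 : fid2 v u = K := by simp [fid2]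
    have hf2 : fid2 u v = K := by simp [fid2]
    have hf3 : ∀ a b, A a b → fid2 a b = fid a b := by
      intro a b hab
      simp only [fid2, if_neg (hq a b hab)]
    have hA1 : ∀ b, A' u b → b = v := by
      intro b hb
      rcases (h u b).1 hb with h4 | ⟨-, h5⟩ | ⟨h4, h5⟩
      · exact absurd h4 (hiso b)
      · exact h5
      · exact absurd h4 huv
    have hA2 : ∀ b < n, A' v b → b = u := by
      intro b hbn hb
      rcases (h v b).1 hb with h4 | ⟨h4, h5⟩ | ⟨h4, h5⟩
      · exact absurd h4 (hN' b hbn)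
      · exact absurd h4.symm huv
      · exact h5
    have hA3 : ∀ a b, a ≠ u → a ≠ v → A' a b → A a b := by
      intro a b ha hb hab
      rcases (h a b).1 hab with h4 | ⟨h4, h5⟩ | ⟨h4, h5⟩
      · exact h4
      · exact absurd h4 ha
      · exact absurd h4 hb
    have hA4 : ∀ a b, A a b → A' a b := fun a b hab => (h a b).2 (Or.inl hab)
    have hA5 : A' u v := (h u v).2 (Or.inr (Or.inl ⟨rfl, rfl⟩))
    have hA6 : A' v u := (h v u).2 (Or.inr (Or.inr ⟨rfl, rfl⟩))
    refine ⟨pos2, fid2, fun a => (rt a ∧ a ≠ u) ∨ a = v, rk2, ⟨?_, ?_, ?_, ?_, ?_⟩⟩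
    · -- pi
      intro a ha b hb b' hb' hab hab' he
      by_cases hau : a = u
      · subst hau
        rw [hA1 b hab, hA1 b' hab']
      by_cases hav : a = v
      · subst hav
        rw [hA2 b hb hab, hA2 b' hb' hab']
      · have h1 := hA3 a b hau hav hab
        have h2 := hA3 a b' hau hav hab'
        rw [hp3 _ _ h1, hp3 _ _ h2] at he
        exact hc.pi a ha b hb b' hb' h1 h2 he
    · -- ps
      intro a ha b hb hab hne
      by_cases hau : a = u
      · subst hau
        rw [hA1 b hab] at hne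
        exact absurd hp2 hne
      by_cases hav : a = v
      · subst hav
        rw [hA2 b hb hab] at hne
        exact absurd hp1 hne
      · have h1 := hA3 a b hau hav hab
        rw [hp3 _ _ h1] at hne ⊢
        obtain ⟨b', h3, h4, h5⟩ := hc.ps a ha b hb h1 hne
        exact ⟨b', h3, hA4 _ _ h4, by rw [hp3 _ _ h4]; exact h5⟩
    · -- fi
      rintro a ha b hb c hc' ⟨hab, hac, hx⟩
      by_cases hau : a = u
      · subst hau
        rw [hA1 b hab, hA1 c hac, hf1, hf2]
      by_cases hav : a = v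
      · subst hav
        rw [hA2 b hb hab, hA2 c hc' hac, hf1, hf2]
      · have h1 := hA3 a b hau hav hab
        have h2 := hA3 a c hau hav hac
        rw [hp3 _ _ h1, hp3 _ _ h2] at hx
        rw [hf3 _ _ (hs _ _ h1), hf3 _ _ h2]
        refine hc.fi a ha b hb c hc' ⟨h1, h2, hx.imp id fun hx => ⟨hx.1, fun c' h4 h5 => ?_⟩⟩
        have := hx.2 c' h4 (hA4 _ _ h5)
        rwa [hp3 _ _ h5] at this
    · -- ro
      rintro a ha ⟨b, hb, hab⟩
      by_cases hau : a = u
      · subst hau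
        refine Or.inr ⟨v, hv, hA5, ?_⟩
        simp only [rk2, if_neg (Ne.symm huv), if_true]
        omega
      by_cases hav : a = v
      · exact Or.inl (Or.inr hav)
      rcases hc.ro a ha ⟨b, hb, hA3 a b hau hav hab⟩ with h1 | ⟨b', h1, h2, h3⟩
      · exact Or.inl (Or.inl ⟨h1, hau⟩)
      · refine Or.inr ⟨b', h1, hA4 _ _ h2, ?_⟩
        have h4 : b' ≠ u := by
          rintro rfl
          exact hiso' _ h2
        simp only [rk2, if_neg hau, if_neg h4]
        exact h3
    · -- co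
      have h1 := cntE n A A' u v h
      have h2 : {a | a < n ∧ ((rt a ∧ a ≠ u) ∨ a = v) ∧ ∃ b < n, A' a b}.ncard ≤
          {a | a < n ∧ rt a ∧ ∃ b < n, A a b}.ncard + 1 := by
        refine le_trans (Set.ncard_le_ncard (t := insert v {a | a < n ∧ rt a ∧ ∃ b < n, A a b})
          ?_ ((finV n _).insert _)) (Set.ncard_insert_le _ _)
        rintro a ⟨ha, h3, b, hb, hab⟩
        by_cases hav : a = v
        · exact Or.inl hav
        · rcases h3 with ⟨h3, h4⟩ | h3
          · exact Or.inr ⟨ha, h3, b, hb, hA3 a b h4 hav hab⟩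
          · exact absurd h3 hav
      have h3 : {a | a < n ∧ ∃ b < n, A a b}.ncard + 2 ≤ {a | a < n ∧ ∃ b < n, A' a b}.ncard := by
        have h4 : u ∉ {a | a < n ∧ ∃ b < n, A a b} := by
          rintro ⟨-, b, -, hb⟩
          exact hiso b hb
        have h5 : v ∉ insert u {a | a < n ∧ ∃ b < n, A a b} := by
          rintro (h6 | ⟨-, b, hb, hab⟩)
          · exact huv h6.symm
          · exact hN' b hb hab
        have h6 := Set.ncard_insert_of_notMem h4 (finV n _)
        have h7 := Set.ncard_insert_of_notMem h5 ((finV n _).insert _)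
        have h8 : (insert v (insert u {a | a < n ∧ ∃ b < n, A a b})).ncard ≤
            {a | a < n ∧ ∃ b < n, A' a b}.ncard := by
          refine Set.ncard_le_ncard ?_ (finV n _)
          rintro a (rfl | rfl | ⟨ha, b, hb, hab⟩)
          · exact ⟨hv, u, hu, hA6⟩
          · exact ⟨hu, v, hv, hA5⟩
          · exact ⟨ha, b, hb, hA4 _ _ hab⟩
        omega
      have h4 : {k | ∃ a < n, ∃ b < n, A a b ∧ fid a b = k}.ncard + 1 ≤
          {k | ∃ a < n, ∃ b < n, A' a b ∧ fid2 a b = k}.ncard := by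
        rw [← Set.ncard_insert_of_notMem hK (finF n A fid)]
        refine Set.ncard_le_ncard ?_ (finF n A' fid2)
        rintro k (rfl | ⟨a, ha, b, hb, hab, rfl⟩)
        · exact ⟨u, hu, v, hv, hA5, hf2⟩
        · exact ⟨a, ha, b, hb, hA4 _ _ hab, hf3 _ _ hab⟩
      have h5 := hc.co
      omega

end Pool.Agent.H42.PU
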